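import Pool.Agent.H781.CM.All
import Pool.Agent.H781.CM.Bri

/-!
MP_738e39_gt, Q1: every closed manifold that admits almost nonnegative curvature operator has
nonnegative Euler characteristic.

`AdmitsANCO (𝓡 n) M n` says that for every `ε > 0` there is a smooth Riemannian metric on the
`n`-manifold `M` with diameter at most `1` (`DiamLE`) all of whose curvature operator eigenvalues
are at least `-ε` (`CurvOpGE`). `IsBetti (𝓡 n) M p b` says that the `p`-th de Rham cohomology of `M`
has dimension `b` (`Pool/Agent/H781/CM/FDefs.lean`).
-/

set_option autoImplicit false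

open Bundle Manifold ContDiff

noncomputable section

namespace Pool.Agent.Results.MP_738e39_gt.NonnegativeEulerCharacteristic

open Pool.Agent.H781.CM Pool.Agent.H781.CM.F

/-- Closed connected manifolds with almost nonnegative curvature operator have finite-dimensional
de Rham cohomology and nonnegative Euler characteristic. -/
theorem result (n : ℕ) (M : Type) [TopologicalSpace M] [T2Space M] [CompactSpace M]
    [ConnectedSpace M] [ChartedSpace (EuclideanSpace ℝ (Fin n)) M] [IsManifold (𝓡 n) ∞ M]
    (h : F.AdmitsANCO (𝓡 n) M n) :
    ∃ b : ℕ → ℕ, (∀ p, IsBetti (𝓡 n) M p (b p)) ∧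
      0 ≤ ∑ p ∈ Finset.range (n + 1), (-1 : ℤ) ^ p * (b p : ℤ) := by
  have h' := main n M h
  refine ⟨fun p => Module.finrank ℝ (HF n M p), fun p => ?_, h'.2⟩
  haveI := h'.1 p
  exact isBetti p

end Pool.Agent.Results.MP_738e39_gt.NonnegativeEulerCharacteristic
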